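import Pool.Agent.V1169.BW4

/-! # `MP_8c76c5_an`, Q1: a Baker wandering domain whose orbit contains all critical points

The function is `f z = 2 ^ 33 * z * ∏ (1 - z / r k)` with simple positive zeros `r k` growing so fast
that `f` maps `{r k / 4 < |z| < r (k + 1) / 2 ^ 15}`, with a small disc about `r k` removed, into
`{4 r (k + 1) < |z| < r (k + 2) / 2 ^ 15}`.
-/

set_option autoImplicit false

open Filter Topology Metric Set Pool.Agent.H384R2.Fatou Pool.Agent.TH224.SC

namespace Pool.Agent.Results.MP_8c76c5_an.AllCriticalPoints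

/-- `0` lies in a bounded component of the complement of `A` in the Riemann sphere. -/
def SurroundsZero (A : Set ℂ) : Prop :=
  ∃ C ∈ SphereHoles A, ((0 : ℂ) : OnePoint ℂ) ∈ C ∧ OnePoint.infty ∉ C ∧
    ∃ R : ℝ, ∀ z : ℂ, (z : OnePoint ℂ) ∈ C → ‖z‖ ≤ R

/-- `W 0` is a Baker wandering domain of `f`, where `W k` is the Fatou component that contains
`f^k(W 0)`. -/
structure IsBWD (f : ℂ → ℂ) (W : ℕ → Set ℂ) : Prop where
  comp : ∀ k, ∃ z ∈ FatouSet f, W k = FatouComponent f z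
  map : ∀ k, f^[k] '' W 0 ⊆ W k
  wandering : ∀ m n, m ≠ n → W m ∩ W n = ∅
  escape : ∀ z ∈ W 0, Tendsto (fun n => ‖f^[n] z‖) atTop atTop
  large : ∀ᶠ n in atTop, Bornology.IsBounded (W n) ∧ (SphereHoles (W n)).Nontrivial ∧
    SurroundsZero (W n)

open Pool.Agent.V1169.BW

theorem comp_sub {A : Set ℂ} {c : ℂ} {ρ : ℝ} (hA : ∀ z, ‖z - c‖ = ρ → z ∈ A) {x : ℂ}
    (hx : x ∉ A) (hxρ : ‖x - c‖ < ρ) :
    connectedComponentIn (((↑) : ℂ → OnePoint ℂ) '' A)ᶜ (x : OnePoint ℂ) ⊆
      ((↑) : ℂ → OnePoint ℂ) '' ball c ρ := by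
  set C := connectedComponentIn (((↑) : ℂ → OnePoint ℂ) '' A)ᶜ (x : OnePoint ℂ) with hC
  have hxA : (x : OnePoint ℂ) ∈ (((↑) : ℂ → OnePoint ℂ) '' A)ᶜ := by
    rintro ⟨y, hy, hyx⟩
    rw [OnePoint.coe_injective hyx] at hy
    exact hx hy
  have hCA : C ⊆ (((↑) : ℂ → OnePoint ℂ) '' A)ᶜ := connectedComponentIn_subset _ _
  have hu : IsOpen (((↑) : ℂ → OnePoint ℂ) '' ball c ρ) :=
    OnePoint.isOpenEmbedding_coe.isOpenMap _ isOpen_ball
  have hv : IsOpen (((↑) : ℂ → OnePoint ℂ) '' closedBall c ρ)ᶜ :=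
    ((isCompact_closedBall c ρ).image OnePoint.continuous_coe).isClosed.isOpen_compl
  refine IsPreconnected.subset_left_of_subset_union hu hv ?_ ?_ ?_
    isPreconnected_connectedComponentIn
  · rw [Set.disjoint_left]
    rintro _ ⟨y, hy, rfl⟩ h
    exact h ⟨y, ball_subset_closedBall hy, rfl⟩
  · intro w hw
    by_cases h : w ∈ (((↑) : ℂ → OnePoint ℂ) '' closedBall c ρ)
    · left
      obtain ⟨y, hy, rfl⟩ := h
      refine ⟨y, ?_, rfl⟩
      rw [mem_closedBall, dist_eq_norm] at hy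
      rw [mem_ball, dist_eq_norm]
      rcases hy.lt_or_eq with h1 | h1
      · exact h1
      · exact absurd ⟨y, hA y h1, rfl⟩ (hCA hw)
    · exact Or.inr h
  · exact ⟨_, mem_connectedComponentIn hxA, ⟨x, by rwa [mem_ball, dist_eq_norm], rfl⟩⟩

theorem zero_comp (n : ℕ) : connectedComponentIn (((↑) : ℂ → OnePoint ℂ) '' U n)ᶜ
    ((0 : ℂ) : OnePoint ℂ) ⊆ ((↑) : ℂ → OnePoint ℂ) '' ball 0 (3 * r (n + 1) / 2 ^ 17) := by
  apply comp_sub
  · intro z hz
    rw [sub_zero] at hz
    exact circle_U n hz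
  · exact zero_not_U n
  · rw [sub_zero, norm_zero]
    have := r_pos (n + 1)
    positivity

theorem zero_mem (n : ℕ) : ((0 : ℂ) : OnePoint ℂ) ∈ (((↑) : ℂ → OnePoint ℂ) '' U n)ᶜ := by
  rintro ⟨y, hy, hyx⟩
  rw [OnePoint.coe_injective hyx] at hy
  exact zero_not_U n hy

theorem infty_mem (n : ℕ) : OnePoint.infty ∈ (((↑) : ℂ → OnePoint ℂ) '' U n)ᶜ := by
  rintro ⟨y, hy, hyx⟩
  exact OnePoint.coe_ne_infty y hyx

theorem infty_not (n : ℕ) : OnePoint.infty ∉
    connectedComponentIn (((↑) : ℂ → OnePoint ℂ) '' U n)ᶜ ((0 : ℂ) : OnePoint ℂ) := by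
  intro h
  obtain ⟨y, -, hyx⟩ := zero_comp n h
  exact OnePoint.coe_ne_infty y hyx

theorem holes_nontrivial (n : ℕ) : (SphereHoles (U n)).Nontrivial := by
  refine ⟨_, ⟨_, zero_mem n, rfl⟩, _, ⟨_, infty_mem n, rfl⟩, fun h => infty_not n ?_⟩
  rw [h]
  exact mem_connectedComponentIn (infty_mem n)

theorem surrounds (n : ℕ) : SurroundsZero (U n) := by
  refine ⟨_, ⟨_, zero_mem n, rfl⟩, mem_connectedComponentIn (zero_mem n), infty_not n,
    3 * r (n + 1) / 2 ^ 17, fun z hz => ?_⟩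
  obtain ⟨y, hy, hyx⟩ := zero_comp n hz
  rw [OnePoint.coe_injective hyx, mem_ball_zero_iff] at hy
  exact hy.le

theorem holes_infinite : (SphereHoles (U 0)).Infinite := by
  choose x hx4 hxk using exists_pre
  have hx1 : ∀ k, f^[k + 1] (x k) = 0 := by
    intro k
    rw [Function.iterate_succ_apply', hxk, f_r]
  have hxU : ∀ k, x k ∉ U 0 := fun k => not_U_of_hits (hx1 k)
  have hx0 : ∀ j k, j < k → f^[k] (x j) = 0 := by
    intro j k hjk
    obtain ⟨l, rfl⟩ := Nat.exists_eq_add_of_le hjk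
    rw [show j.succ + l = l + (j + 1) by omega, Function.iterate_add_apply, hx1, iter_zero]
  set A : Set (OnePoint ℂ) := ((↑) : ℂ → OnePoint ℂ) '' U 0 with hA
  have hxA : ∀ j, ((x j : ℂ) : OnePoint ℂ) ∈ Aᶜ := by
    rintro j ⟨z, hz, hzx⟩
    rw [OnePoint.coe_injective hzx] at hz
    exact hxU j hz
  have hsub : ∀ j, connectedComponentIn Aᶜ ((x j : ℂ) : OnePoint ℂ) ⊆
      ((↑) : ℂ → OnePoint ℂ) '' ball 0 (3 * r (0 + 1) / 2 ^ 17) := by
    intro j
    apply comp_sub
    · intro z hz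
      rw [sub_zero] at hz
      exact circle_U 0 hz
    · exact hxU j
    · rw [sub_zero]
      refine (hx4 j).trans_le ?_
      have h1 := r_step 0
      have h2 : r 0 = 1 := rfl
      rw [h2] at h1
      rw [le_div_iff₀ (by positivity)]
      linarith
  have hsep : ∀ j k, j < k → ((x k : ℂ) : OnePoint ℂ) ∉ connectedComponentIn Aᶜ (x j : OnePoint ℂ) := by
    intro j k hjk hmem
    set C := connectedComponentIn Aᶜ (x j : OnePoint ℂ) with hC
    have hCp : IsPreconnected C := isPreconnected_connectedComponentIn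
    have hCA : C ⊆ Aᶜ := connectedComponentIn_subset _ _
    have hxjC : ((x j : ℂ) : OnePoint ℂ) ∈ C := mem_connectedComponentIn (hxA j)
    have hCD : C ⊆ ((↑) : ℂ → OnePoint ℂ) '' D 0 := hsub j
    set P : Set ℂ := ((↑) : ℂ → OnePoint ℂ) ⁻¹' C with hP
    have hPC : ((↑) : ℂ → OnePoint ℂ) '' P = C := by
      rw [hP, image_preimage_eq_inter_range]
      apply inter_eq_left.2
      intro w hw
      obtain ⟨z, -, rfl⟩ := hCD hw
      exact ⟨z, rfl⟩
    have hPp : IsPreconnected P := by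
      rw [← OnePoint.isOpenEmbedding_coe.isInducing.isPreconnected_image, hPC]
      exact hCp
    have hPD : P ⊆ D 0 := by
      intro z hz
      obtain ⟨w, hw, hwz⟩ := hCD hz
      rwa [OnePoint.coe_injective hwz] at hw
    have hPU : ∀ z ∈ P, z ∉ U 0 := fun z hz hzU => hCA hz ⟨z, hzU, rfl⟩
    have hI : IsPreconnected (f^[k] '' P) := hPp.image _ (f_cont.iterate k).continuousOn
    have h1 : (r k : ℂ) ∈ f^[k] '' P := ⟨x k, hmem, hxk k⟩
    have h2 : (0 : ℂ) ∈ f^[k] '' P := ⟨x j, hxjC, hx0 j k hjk⟩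
    have hr := r_pos k
    have h3 := hI.intermediate_value h1 h2 (f := fun z => dist z (r k : ℂ)) (by fun_prop)
    obtain ⟨w, hw, hwd⟩ := h3 (show r k / 2 ∈ Icc (dist (r k : ℂ) (r k : ℂ)) (dist 0 (r k : ℂ)) by
      rw [dist_self, dist_eq_norm, zero_sub, norm_neg, norm_r]
      constructor <;> linarith)
    obtain ⟨y, hy, rfl⟩ := hw
    exact (chase_iter hPD hPU k y hy).2 (G_U k (Or.inl (Or.inr hwd)))
  apply Set.infinite_of_injective_forall_mem
    (f := fun j : ℕ => connectedComponentIn Aᶜ ((x j : ℂ) : OnePoint ℂ))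
  · intro j k hjk
    have hjk : connectedComponentIn Aᶜ ((x j : ℂ) : OnePoint ℂ) =
      connectedComponentIn Aᶜ ((x k : ℂ) : OnePoint ℂ) := hjk
    by_contra hne
    rcases lt_or_gt_of_ne hne with h3 | h3
    · apply hsep j k h3
      rw [hjk]
      exact mem_connectedComponentIn (hxA k)
    · apply hsep k j h3
      rw [← hjk]
      exact mem_connectedComponentIn (hxA j)
  · intro j
    exact ⟨_, hxA j, rfl⟩

theorem trans : TransEntire f := by
  refine ⟨f_differentiable, ?_⟩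
  rintro ⟨p, hp⟩
  have h1 : p = 0 := by
    apply Polynomial.eq_zero_of_infinite_isRoot
    refine Set.infinite_of_injective_forall_mem (f := fun k : ℕ => (r k : ℂ)) ?_ ?_
    · intro a b hab
      exact r_strictMono.injective (Complex.ofReal_injective hab)
    · intro k
      show p.eval (r k : ℂ) = 0
      rw [← hp, f_r]
  apply deriv_zero_ne
  have h2 : f = fun _ => 0 := by
    funext z
    rw [hp, h1, Polynomial.eval_zero]
  rw [h2, deriv_const]

/-- **Affirmative answer to Q1.** There are a transcendental entire function and an infinitely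
connected Baker wandering domain `W 0` of it such that every critical point of the function lies in
one of the Fatou components `W k` containing the images of `W 0`. -/
theorem result : ∃ (g : ℂ → ℂ) (W : ℕ → Set ℂ), TransEntire g ∧ IsBWD g W ∧
    (SphereHoles (W 0)).Infinite ∧ ∀ c : ℂ, deriv g c = 0 → ∃ k, c ∈ W k := by
  refine ⟨f, U, trans, ⟨fun k => ⟨pt k, pt_F k, rfl⟩, fun k => ?_, fun m n hmn => ?_,
    fun z hz => U_escape 0 hz, Eventually.of_forall fun n => ⟨?_, holes_nontrivial n, surrounds n⟩⟩,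
    holes_infinite, fun c hc => ?_⟩
  · have := U_iter 0 k
    rwa [zero_add] at this
  · exact Set.disjoint_iff_inter_eq_empty.1 (U_disjoint hmn)
  · exact isBounded_ball.subset (U_bdd n)
  · obtain ⟨k, x, rfl, h1, h2⟩ := crit hc
    have hr := r_pos k
    refine ⟨k, G_U k (Or.inl (Or.inl ?_))⟩
    show r k / 4 < ‖(x : ℂ)‖ ∧ ‖(x : ℂ)‖ < (1 - ep k) * r k
    rw [Complex.norm_real, Real.norm_of_nonneg (by linarith)]
    exact ⟨h1, h2⟩

end Pool.Agent.Results.MP_8c76c5_an.AllCriticalPoints
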